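import Mathlib
import Pool.Agent.Lib.MP_4fb322_lc_q.Almost
import Pool.Agent.Lib.MP_4fb322_lc_h71.C4
import Pool.Agent.Lib.MP_4fb322_lc_e.E6

set_option autoImplicit false

/-!
# Well-quasi-ordered ages

For every relational signature and every age of finite structures of this signature: there is no
infinite antichain if and only if the poset of sub-ages is well-founded, if and only if the set of
sub-ages is countable. The definitions are in `Lib/MP_4fb322_lc_q/Iface.lean`.
-/

namespace Pool.Agent.Results.MP_4fb322_lc.AllAges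

open Pool.Agent.Lib.MP_4fb322_lc_q

theorem result (I : Type) (ar : I → ℕ) (𝒜 : Set (Str ar)) (hA : IsAge 𝒜) :
    (NoAntichain 𝒜 ↔ SubagesWF 𝒜) ∧ (SubagesWF 𝒜 ↔ SubagesCtbl 𝒜) :=
  final_of_AB Pool.Agent.Lib.MP_4fb322_lc_e.thmA Pool.MP4fb322AA.thmB I ar 𝒜 hA

end Pool.Agent.Results.MP_4fb322_lc.AllAges
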